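import Pool.Agent.Lib.MP_6ff041_lc.Main

set_option autoImplicit false

universe u

namespace Pool.Agent.Results.MP_6ff041_lc.Preserved

open Pool.Agent.Lib.MP_6ff041_lc

/-- Diagonal Prikry forcing preserves Magidor cardinals.  Let `κ 0 < κ 1 < …` be measurable
cardinals with normal ultrafilters `U n` on `κ n`, let `lam` be their supremum and suppose that
`lam` is a Magidor cardinal.  Then every condition of the diagonal Prikry forcing `Cond U` forces
the first-order statement that (the canonical name of) `lam` is a Magidor cardinal; that is, `lam`
is a Magidor cardinal in every generic extension. -/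
theorem result (κ : ℕ → Cardinal.{u}) (U : ∀ n, Ultrafilter (κ n).ord.ToType)
    (hκ : StrictMono κ) (hU : ∀ n, IsNormalMeasure (κ n) (U n))
    (lam : Cardinal.{u}) (hlam : lam = ⨆ n, κ n) (hM : IsMagidor lam) :
    ∀ p : Cond U, Forces (Fm.magidor (check (Cond.one U) lam.ord.toPSet)) p :=
  forces_magidor (setup_of_normal hκ hU) hκ hlam (fun n c hc => (hU n).two_pow_lt c hc) hM

end Pool.Agent.Results.MP_6ff041_lc.Preserved
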